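import Pool.Agent.Q223.MM.Global

/-!
# The reduction
-/

set_option autoImplicit false

namespace Pool.Agent.Q223.MM

open MvPolynomial Pool.Agent.H628R4.TP Pool.Agent.Y229.MS
open Pool.Agent.W428.MOT (Pt Constr ratRing Lu MK)
open Pool.Agent.W375.MG (zetaG zetaOrd IsPole zetaOrd_eq ratRing_mono good_units)
open Pool.Agent.Y229.PG (BecomesG becomes_global)
open Pool.Agent.Y229.RE (stab)

/-- The polynomial `∑ c_m z_m + ∑ y_m (z_m - z_(o m) x_(v m))`, where `z_(o m)` is `1` if `o m = none`;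
the variables are `x_1, …, x_n`, `y_1, …, y_κ`, `z_1, …, z_κ` in this order. -/
noncomputable def prog {n κ : ℕ} (o : Fin κ → Option (Fin κ)) (v : Fin κ → Fin n)
    (c : Fin κ → ℂ) : MvPolynomial (Fin (n + (κ + κ))) ℂ :=
  ∑ m, (C (c m) * X (Fin.natAdd n (Fin.natAdd κ m)) +
    X (Fin.natAdd n (Fin.castAdd κ m)) * (X (Fin.natAdd n (Fin.natAdd κ m)) -
      ((o m).elim 1 fun m' => X (Fin.natAdd n (Fin.natAdd κ m'))) *
        X (Fin.castAdd (κ + κ) (v m))))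

/-- the program of a Horner scheme -/
theorem exists_prog {S : Set ℂ} {n κ : ℕ} {f : MvPolynomial (Fin n) ℂ}
    (h : Rep (coeffs S) κ 0 f) :
    ∃ (o : Fin κ → Option (Fin κ)) (v : Fin κ → Fin n) (c : Fin κ → ℂ),
      Forest o ∧ (∀ m, c m ∈ coeffs S) ∧
      ∃ ψ : MvPolynomial (Fin (n + (κ + κ))) ℂ ≃ₐ[ℂ] MvPolynomial (Fin (n + (κ + κ))) ℂ,
        ψ (stabK f κ) = prog o v c := by
  obtain ⟨o, v, c, e, ho, hc, hH⟩ := h
  refine ⟨o, v, c, ho, hc, aut o v (fun m => e m - C ((0 : Fin κ → ℂ) m)) ho, ?_⟩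
  have h1 := prog_iso ho hH (0 : Fin κ → ℂ)
  refine h1.trans ?_
  unfold progD prog
  refine Finset.sum_congr rfl fun m _ => ?_
  rw [Pi.zero_apply, map_zero, sub_zero]
  rfl

theorem deriv_mem {n : ℕ} (i : Fin n) :
    ((pderiv i : Derivation ℂ (MvPolynomial (Fin n) ℂ) (MvPolynomial (Fin n) ℂ)) :
      MvPolynomial (Fin n) ℂ →ₗ[ℂ] MvPolynomial (Fin n) ℂ) ∈ weylS (Fin n) :=
  Algebra.subset_adjoin (Or.inr ⟨i, rfl⟩)

theorem bfun_X {n : ℕ} (i : Fin n) :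
    IsBFunction (X i : MvPolynomial (Fin n) ℂ) ((Polynomial.X + 1) * 1) := by
  refine ⟨Finsupp.single 0 ⟨_, deriv_mem i⟩, fun s => ?_⟩
  rw [Finsupp.sum_single_index (by simp)]
  rw [mul_one, Polynomial.eval_add, Polynomial.eval_X, Polynomial.eval_one, pow_zero, one_smul]
  show _ = pderiv i (X i ^ (s + 1))
  rw [pderiv_pow, pderiv_X_self, mul_one, add_tsub_cancel_right, map_add, map_one]
  push_cast
  rfl

theorem rep_var {S : Set ℂ} (hS : (1 : ℂ) ∈ AddSubgroup.closure S) {n : ℕ} (i : Fin n) :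
    ∃ κ, Rep (coeffs S) κ 0 (X i : MvPolynomial (Fin n) ℂ) :=
  rep_closure (Finsupp.single i 1) (by
    intro h
    have := DFunLike.congr_fun h i
    simp at this) 1 hS

theorem minExp_prog {n κ : ℕ} {f : MvPolynomial (Fin n) ℂ} (hf : f.totalDegree ≠ 0) (N : ℕ)
    {c : Polynomial ℂ} (hc0 : c ≠ 0) (hb : IsBFunction f ((Polynomial.X + 1) * c))
    (hN : ∀ r ∈ c.roots, r.re < (κ : ℝ) - N)
    {F : MvPolynomial (Fin (n + (κ + κ))) ℂ}
    (ψ : MvPolynomial (Fin (n + (κ + κ))) ℂ ≃ₐ[ℂ] MvPolynomial (Fin (n + (κ + κ))) ℂ)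
    (hψ : ψ (stabK f κ) = F) : MinExp N F := by
  have hne : c.comp (Polynomial.X + Polynomial.C (κ : ℂ)) ≠ 0 := by
    intro h0
    apply hc0
    have h1 := congrArg (fun p => p.comp (Polynomial.X - Polynomial.C (κ : ℂ))) h0
    simp only [Polynomial.comp_assoc, Polynomial.zero_comp] at h1
    rw [Polynomial.add_comp, Polynomial.X_comp, Polynomial.C_comp, sub_add_cancel,
      Polynomial.comp_X] at h1
    exact h1
  refine ⟨_, hne, bfun_F hf hb ψ hψ, fun r hr => ?_⟩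
  rw [Polynomial.mem_roots hne, Polynomial.IsRoot.def, Polynomial.eval_comp] at hr
  have h2 := hN _ ((Polynomial.mem_roots hc0).2 hr)
  rw [Polynomial.eval_add, Polynomial.eval_X, Polynomial.eval_C, Complex.add_re,
    Complex.natCast_re] at h2
  linarith

theorem re_bound (c : Polynomial ℂ) : ∃ M : ℕ, ∀ r ∈ c.roots, r.re < M := by
  classical
  obtain ⟨B, hB⟩ := ((c.roots.toFinset.finite_toSet).image fun r : ℂ => r.re).bddAbove
  obtain ⟨M, hM⟩ := exists_nat_gt B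
  refine ⟨M, fun r hr => (hB ⟨r, ?_, rfl⟩).trans_lt hM⟩
  exact Finset.mem_coe.2 (Multiset.mem_toFinset.2 hr)

theorem var_deg {n : ℕ} (i : Fin n) : (X i : MvPolynomial (Fin n) ℂ).totalDegree ≠ 0 := by
  rw [totalDegree_X]
  exact one_ne_zero

/-- the case distinction for the existence of `b`-functions -/
theorem bfun_cases {n : ℕ} {f : MvPolynomial (Fin n) ℂ} (hf : f.totalDegree ≠ 0) :
    (∃ c : Polynomial ℂ, c ≠ 0 ∧ IsBFunction f ((Polynomial.X + 1) * c)) ∨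
      ∀ b : Polynomial ℂ, IsBFunction f b → b = 0 := by
  by_cases h : ∃ b : Polynomial ℂ, IsBFunction f b ∧ b ≠ 0
  · obtain ⟨b, hb, hb0⟩ := h
    left
    have hm1 := (becomes_global hf hb (k := 0) (G := stab f 0) ⟨AlgEquiv.refl, rfl⟩).1
    obtain ⟨c, rfl⟩ : (Polynomial.X + 1 : Polynomial ℂ) ∣ b := by
      have := Polynomial.dvd_iff_isRoot.2 hm1
      simpa using this
    exact ⟨c, right_ne_zero_of_mul hb0, hb⟩
  · right
    push Not at h
    exact h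

/-- programs of all large sizes -/
theorem exists_progs {S : Set ℂ} {n : ℕ} (i0 : Fin n) {f : MvPolynomial (Fin n) ℂ}
    (hf : f.totalDegree ≠ 0) {κ₀ : ℕ} (hr : Rep (coeffs S) κ₀ 0 f) (N : ℕ) {c : Polynomial ℂ}
    (hc0 : c ≠ 0) (hb : IsBFunction f ((Polynomial.X + 1) * c)) :
    ∃ κ₁, ∀ κ, κ₁ ≤ κ → ∃ (o : Fin κ → Option (Fin κ)) (v : Fin κ → Fin n) (c : Fin κ → ℂ),
      Forest o ∧ (∀ m, c m ∈ coeffs S) ∧ MinExp N (prog o v c) ∧
      ∃ ψ : MvPolynomial (Fin (n + (κ + κ))) ℂ ≃ₐ[ℂ] MvPolynomial (Fin (n + (κ + κ))) ℂ,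
        ψ (stabK f κ) = prog o v c := by
  obtain ⟨M, hM⟩ := re_bound c
  refine ⟨max κ₀ (M + N), fun κ hκ => ?_⟩
  obtain ⟨o, v, c', ho, hc', ψ, hψ⟩ := exists_prog (rep_ge i0 hr κ ((le_max_left _ _).trans hκ))
  refine ⟨o, v, c', ho, hc', minExp_prog hf N hc0 hb (fun r hr => ?_) ψ hψ, ψ, hψ⟩
  have h1 : ((M + N : ℕ) : ℝ) ≤ (κ : ℝ) := by exact_mod_cast (le_max_right _ _).trans hκ
  push_cast at h1
  have h2 := hM r hr
  linarith

theorem transfer_four {n κ : ℕ} {f : MvPolynomial (Fin n) ℂ} (hf : f.totalDegree ≠ 0)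
    (F : ∀ j : ℕ, MvPolynomial (Fin (n + (κ + j + (κ + j)))) ℂ)
    (hF : ∀ j : ℕ, ∃ ψ : MvPolynomial (Fin (n + (κ + j + (κ + j)))) ℂ ≃ₐ[ℂ]
      MvPolynomial (Fin (n + (κ + j + (κ + j)))) ℂ, ψ (stabK f (κ + j)) = F j)
    {W : Set (Pt ℂ (Fin n))} (hW : Constr W) :
    ∃ W' : ∀ j : ℕ, Set (Pt ℂ (Fin (n + (κ + j + (κ + j))))),
      (∀ j, Constr (W' j)) ∧ (W = Set.univ → ∀ j, W' j = Set.univ) ∧
      ((∀ j < 4, StrongOn (F j) (W' j)) → StrongOn f W) := by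
  choose ψ hψ using hF
  choose χ hχ using fun j => exists_itr_iso f (κ + j) (ψ j) (hψ j)
  refine ⟨fun j => Wpull (χ j) (Witr W (κ + j)), fun j => constr_pull _ (constr_Witr hW _), ?_, ?_⟩
  · rintro rfl j
    beta_reduce
    rw [Witr_univ]
    rfl
  · intro h s₀ hp b hb
    by_cases h1 : s₀ ≠ (κ : ℚ) - 1 ∧ s₀ ≠ κ
    · exact transfer_at (κ := κ) hf hW (ψ 0) (hψ 0) (ψ 1) (hψ 1) (χ 0) (hχ 0) (χ 1) (hχ 1)
        (h 0 (by norm_num)) (h 1 (by norm_num)) s₀ h1.1 h1.2 hp b hb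
    · refine transfer_at (κ := κ + 2) hf hW (ψ 2) (hψ 2) (ψ 3) (hψ 3) (χ 2) (hχ 2) (χ 3) (hχ 3)
        (h 2 (by norm_num)) (h 3 (by norm_num)) s₀ ?_ ?_ hp b hb
      · rintro rfl
        apply h1
        push_cast
        constructor <;> intro h2 <;> linarith
      · rintro rfl
        apply h1
        push_cast
        constructor <;> intro h2 <;> linarith

/-! ### Programs are polynomials of the same kind -/

theorem prog_eval {n κ : ℕ} (o : Fin κ → Option (Fin κ)) (v : Fin κ → Fin n) (c : Fin κ → ℂ) :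
    eval 0 (prog o v c) = 0 := by
  unfold prog
  rw [map_sum]
  refine Finset.sum_eq_zero fun m _ => ?_
  simp

theorem prog_deg {n κ : ℕ} (o : Fin κ → Option (Fin κ)) (v : Fin κ → Fin n) (c : Fin κ → ℂ)
    (hκ : 0 < κ) : (prog o v c).totalDegree ≠ 0 := by
  classical
  intro h0
  have h1 := totalDegree_eq_zero_iff_eq_C.1 h0
  set m0 : Fin κ := ⟨0, hκ⟩
  have h2 : eval (assign (fun _ => 0) (fun m => if m = m0 then 1 - c m0 else 0)
      (fun m => if m = m0 then 1 else 0)) (prog o v c) = 1 := by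
    unfold prog
    rw [map_sum]
    simp only [map_add, map_mul, map_sub, eval_C, eval_X, assign_x, assign_y, assign_z, mul_zero,
      sub_zero]
    rw [Finset.sum_eq_single m0]
    · simp
    · intro m _ hm
      simp [hm]
    · intro h
      exact absurd (Finset.mem_univ _) h
  have h3 := prog_eval o v c
  rw [h1, eval_C] at h2 h3
  rw [h3] at h2
  exact zero_ne_one h2

theorem coeff_mono_mem {σ : Type} {A : AddSubgroup ℂ} {a : ℂ} (ha : a ∈ A) (d d' : σ →₀ ℕ) :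
    coeff d (monomial d' a : MvPolynomial σ ℂ) ∈ A := by
  classical
  rw [coeff_monomial]
  split_ifs
  · exact ha
  · exact A.zero_mem

theorem coeffs_mem {S : Set ℂ} {t : ℂ} (h : t ∈ coeffs S) : t ∈ AddSubgroup.closure S := by
  rcases h with rfl | h | h
  · exact AddSubgroup.zero_mem _
  · exact AddSubgroup.subset_closure h
  · rw [← neg_neg t]
    exact AddSubgroup.neg_mem _ (AddSubgroup.subset_closure h)

theorem prog_coeff {S : Set ℂ} (hS : (1 : ℂ) ∈ AddSubgroup.closure S) {n κ : ℕ}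
    (o : Fin κ → Option (Fin κ)) (v : Fin κ → Fin n) (c : Fin κ → ℂ)
    (hc : ∀ m, c m ∈ coeffs S) (d : Fin (n + (κ + κ)) →₀ ℕ) :
    coeff d (prog o v c) ∈ AddSubgroup.closure S := by
  classical
  unfold prog
  rw [coeff_sum]
  refine AddSubgroup.sum_mem _ fun m _ => ?_
  have e1 : ∀ i : Fin (n + (κ + κ)), (X i : MvPolynomial (Fin (n + (κ + κ))) ℂ) =
      monomial (Finsupp.single i 1) 1 := fun i => rfl
  have e2 : ((o m).elim 1 fun m' => X (Fin.natAdd n (Fin.natAdd κ m')) :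
      MvPolynomial (Fin (n + (κ + κ))) ℂ) =
      monomial ((o m).elim 0 fun m' => Finsupp.single (Fin.natAdd n (Fin.natAdd κ m')) 1) 1 := by
    cases o m with
    | none => rfl
    | some m' => rfl
  rw [e2]
  simp only [e1, C_mul_monomial, mul_sub, monomial_mul, mul_one, coeff_add, coeff_sub]
  exact AddSubgroup.add_mem _ (coeff_mono_mem (coeffs_mem (hc m)) _ _)
    (AddSubgroup.sub_mem _ (coeff_mono_mem hS _ _) (coeff_mono_mem hS _ _))

theorem forest_iff {κ : ℕ} (o : Fin κ → Option (Fin κ)) :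
    Forest o ↔ ∀ m m' : Fin κ, o m = some m' → m' < m := Iff.rfl

/-- **The reduction for one polynomial.** -/
theorem reduce_one (S : Set ℂ) (hS : (1 : ℂ) ∈ AddSubgroup.closure S) (N n : ℕ)
    (f : MvPolynomial (Fin n) ℂ) (hf : f.totalDegree ≠ 0) (h0 : eval 0 f = 0)
    (hfS : ∀ d, coeff d f ∈ AddSubgroup.closure S) :
    ∃ κ : ℕ, 0 < κ ∧ ∃ (o : ∀ j : ℕ, Fin (κ + j) → Option (Fin (κ + j)))
      (v : ∀ j : ℕ, Fin (κ + j) → Fin n) (c : ∀ j : ℕ, Fin (κ + j) → ℂ),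
      (∀ j, Forest (o j) ∧ (∀ m, c j m ∈ coeffs S) ∧ MinExp N (prog (o j) (v j) (c j))) ∧
      ∀ W : Set (Pt ℂ (Fin n)), Constr W →
        ∃ W' : ∀ j : ℕ, Set (Pt ℂ (Fin (n + (κ + j + (κ + j))))),
          (∀ j, Constr (W' j)) ∧ (W = Set.univ → ∀ j, W' j = Set.univ) ∧
          ((∀ j < 4, StrongOn (prog (o j) (v j) (c j)) (W' j)) → StrongOn f W) := by
  classical
  have hn : 0 < n := by
    rcases Nat.eq_zero_or_pos n with rfl | h
    · exfalso
      apply hf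
      rw [eq_C_of_isEmpty f, totalDegree_C]
    · exact h
  set i0 : Fin n := ⟨0, hn⟩
  have h0' : coeff 0 f = 0 := by
    rw [← constantCoeff_eq, ← eval_zero]
    exact h0
  rcases bfun_cases hf with ⟨p, hp0, hp⟩ | hall
  · obtain ⟨κ₀, hr⟩ := rep_all f h0' hfS
    obtain ⟨κ₁, h1⟩ := exists_progs i0 hf hr N hp0 hp
    choose o v c ho hc hm ψ hψ using fun j : ℕ => h1 (κ₁ + 1 + j) (by omega)
    exact ⟨κ₁ + 1, Nat.succ_pos _, o, v, c, fun j => ⟨ho j, hc j, hm j⟩, fun W hW =>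
      transfer_four (κ := κ₁ + 1) hf (fun j => prog (o j) (v j) (c j)) (fun j => ⟨ψ j, hψ j⟩) hW⟩
  · obtain ⟨κ₀, hr⟩ := rep_var hS i0
    obtain ⟨κ₁, h1⟩ := exists_progs i0 (var_deg i0) hr N one_ne_zero (bfun_X i0)
    choose o v c ho hc hm ψ hψ using fun j : ℕ => h1 (κ₁ + 1 + j) (by omega)
    refine ⟨κ₁ + 1, Nat.succ_pos _, o, v, c, fun j => ⟨ho j, hc j, hm j⟩, fun W hW =>
      ⟨fun j => Set.univ, fun j => ?_, fun _ _ => rfl, fun _ s₀ _ b hb => ?_⟩⟩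
    · have := Constr.zero (K := ℂ) (ι := Fin (n + (κ₁ + 1 + j + (κ₁ + 1 + j)))) 0
      simpa using this
    · rw [hall b hb, Polynomial.eval_zero]

end Pool.Agent.Q223.MM
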