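import Mathlib

/-!
# Programs

Every polynomial `f` without constant term becomes, after the addition of `κ` hyperbolic planes and an
automorphism of the polynomial ring which fixes the origin, the polynomial
`∑ c_m z_m + ∑ y_m (z_m - z_(o m) x_(v m))`, linear in each of the groups of variables `x`, `y`, `z`.
-/

set_option autoImplicit false

namespace Pool.Agent.Q223.MM

open MvPolynomial

section rep

variable {R : Type} [CommRing R] {σ : Type}

/-- `o` is the parent map of a forest on `Fin κ` whose parents come before their children. -/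
def Forest {κ : ℕ} (o : Fin κ → Option (Fin κ)) : Prop :=
  ∀ m m' : Fin κ, o m = some m' → m' < m

/-- `g` is evaluated by Horner's scheme along the forest `o` with labels `v` and coefficients `c`. -/
def Horner {κ : ℕ} (o : Fin κ → Option (Fin κ)) (v : Fin κ → σ) (c : Fin κ → R) (c0 : R)
    (e : Fin κ → MvPolynomial σ R) (g : MvPolynomial σ R) : Prop :=
  (∀ j, e j = C (c j) + ∑ m, if o m = some j then X (v m) * e m else 0) ∧
  g = C c0 + ∑ m, if o m = none then X (v m) * e m else 0

/-- `g` has a Horner scheme with `κ` nodes and coefficients in `T` -/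
def Rep (T : Set R) (κ : ℕ) (c0 : R) (g : MvPolynomial σ R) : Prop :=
  ∃ (o : Fin κ → Option (Fin κ)) (v : Fin κ → σ) (c : Fin κ → R)
    (e : Fin κ → MvPolynomial σ R), Forest o ∧ (∀ m, c m ∈ T) ∧ Horner o v c c0 e g

theorem rep_C (T : Set R) (a : R) : Rep T 0 a (C a : MvPolynomial σ R) := by
  refine ⟨Fin.elim0, Fin.elim0, Fin.elim0, Fin.elim0, fun m => m.elim0, fun m => m.elim0,
    fun m => m.elim0, ?_⟩
  simp

theorem rep_add {T : Set R} {κ₁ κ₂ : ℕ} {c1 c2 : R} {g1 g2 : MvPolynomial σ R}
    (h1 : Rep T κ₁ c1 g1) (h2 : Rep T κ₂ c2 g2) : Rep T (κ₁ + κ₂) (c1 + c2) (g1 + g2) := by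
  classical
  obtain ⟨o1, v1, d1, e1, f1, t1, k1, r1⟩ := h1
  obtain ⟨o2, v2, d2, e2, f2, t2, k2, r2⟩ := h2
  refine ⟨Fin.addCases (fun m => (o1 m).map (Fin.castAdd κ₂)) fun m => (o2 m).map (Fin.natAdd κ₁),
    Fin.addCases v1 v2, Fin.addCases d1 d2, Fin.addCases e1 e2, ?_, ?_, ?_, ?_⟩
  · intro m m'
    refine Fin.addCases (fun m => ?_) (fun m => ?_) m
    · beta_reduce
      rw [Fin.addCases_left]
      intro h
      obtain ⟨x, hx, rfl⟩ := Option.map_eq_some_iff.1 h
      exact f1 m x hx
    · beta_reduce
      rw [Fin.addCases_right]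
      intro h
      obtain ⟨x, hx, rfl⟩ := Option.map_eq_some_iff.1 h
      have h2 := f2 m x hx
      rw [Fin.lt_def] at h2 ⊢
      rw [Fin.val_natAdd, Fin.val_natAdd]
      omega
  · intro m
    refine Fin.addCases (fun m => ?_) (fun m => ?_) m
    · beta_reduce
      rw [Fin.addCases_left]; exact t1 m
    · beta_reduce
      rw [Fin.addCases_right]; exact t2 m
  · intro j
    rw [Fin.sum_univ_add]
    simp only [Fin.addCases_left, Fin.addCases_right]
    refine Fin.addCases (fun j => ?_) (fun j => ?_) j
    · simp only [Fin.addCases_left]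
      have a1 : ∀ m, ((o1 m).map (Fin.castAdd κ₂) = some (Fin.castAdd κ₂ j)) ↔ o1 m = some j := by
        intro m
        rw [Option.map_eq_some_iff]
        constructor
        · rintro ⟨x, hx, h⟩
          rw [hx, (Fin.castAdd_injective _ _) h]
        · intro h
          exact ⟨j, h, rfl⟩
      have a2 : ∀ m, ¬ ((o2 m).map (Fin.natAdd κ₁) = some (Fin.castAdd κ₂ j)) := by
        intro m h
        rw [Option.map_eq_some_iff] at h
        obtain ⟨x, -, h⟩ := h
        have := congrArg Fin.val h
        simp at this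
        omega
      simp only [a1, a2, if_false, Finset.sum_const_zero, add_zero]
      exact k1 j
    · simp only [Fin.addCases_right]
      have a1 : ∀ m, ((o2 m).map (Fin.natAdd κ₁) = some (Fin.natAdd κ₁ j)) ↔ o2 m = some j := by
        intro m
        rw [Option.map_eq_some_iff]
        constructor
        · rintro ⟨x, hx, h⟩
          have h' : x = j := by
            have := congrArg Fin.val h
            simp at this
            exact Fin.ext this
          rw [hx, h']
        · intro h
          exact ⟨j, h, rfl⟩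
      have a2 : ∀ m, ¬ ((o1 m).map (Fin.castAdd κ₂) = some (Fin.natAdd κ₁ j)) := by
        intro m h
        rw [Option.map_eq_some_iff] at h
        obtain ⟨x, -, h⟩ := h
        have := congrArg Fin.val h
        simp at this
        omega
      simp only [a1, a2, if_false, Finset.sum_const_zero, zero_add]
      exact k2 j
  · rw [Fin.sum_univ_add]
    simp only [Fin.addCases_left, Fin.addCases_right, Option.map_eq_none_iff]
    rw [r1, r2, map_add]
    ring

/-- multiplication with a variable -/
theorem rep_X {T : Set R} {κ : ℕ} {c0 : R} (hc : c0 ∈ T)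
    {g : MvPolynomial σ R} (h : Rep T κ c0 g) (i : σ) : Rep T (κ + 1) 0 (X i * g) := by
  classical
  obtain ⟨o, v, c, e, f, t, k, r⟩ := h
  refine ⟨Fin.cons none fun m => some ((o m).elim 0 Fin.succ), Fin.cons i v, Fin.cons c0 c,
    Fin.cons g e, ?_, ?_, ?_, ?_⟩
  · intro m m'
    refine Fin.cases ?_ (fun m => ?_) m
    · rw [Fin.cons_zero]
      intro h
      cases h
    · rw [Fin.cons_succ]
      intro h
      have h' := Option.some.inj h
      subst h'
      cases hm : o m with
      | none => simp
      | some x =>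
        have := f m x hm
        simpa using this
  · intro m
    refine Fin.cases ?_ (fun m => ?_) m
    · rw [Fin.cons_zero]; exact hc
    · rw [Fin.cons_succ]; exact t m
  · intro j
    rw [Fin.sum_univ_succ]
    simp only [Fin.cons_zero, Fin.cons_succ]
    rw [if_neg (by simp), zero_add]
    refine Fin.cases ?_ (fun j => ?_) j
    · simp only [Fin.cons_zero]
      have a1 : ∀ m, (some ((o m).elim 0 Fin.succ) = some (0 : Fin (κ + 1))) ↔ o m = none := by
        intro m
        cases hm : o m with
        | none => simp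
        | some x => simp [Fin.succ_ne_zero]
      simp only [a1]
      exact r
    · simp only [Fin.cons_succ]
      have a1 : ∀ m, (some ((o m).elim 0 Fin.succ) = some (Fin.succ j)) ↔ o m = some j := by
        intro m
        cases hm : o m with
        | none => simp [(Fin.succ_ne_zero j).symm]
        | some x => simp
      simp only [a1]
      exact k j
  · rw [Fin.sum_univ_succ]
    simp

theorem rep_neg {T : Set R} (hT : ∀ t ∈ T, -t ∈ T) {κ : ℕ} {c0 : R} {g : MvPolynomial σ R}
    (h : Rep T κ c0 g) : Rep T κ (-c0) (-g) := by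
  classical
  obtain ⟨o, v, c, e, f, t, k, r⟩ := h
  refine ⟨o, v, fun m => -c m, fun m => -e m, f, fun m => hT _ (t m), fun j => ?_, ?_⟩
  · beta_reduce
    rw [k j, neg_add, map_neg, ← Finset.sum_neg_distrib]
    congr 1
    refine Finset.sum_congr rfl fun m _ => ?_
    split_ifs
    · ring
    · rw [neg_zero]
  · rw [r, neg_add, map_neg, ← Finset.sum_neg_distrib]
    congr 1
    refine Finset.sum_congr rfl fun m _ => ?_
    split_ifs
    · ring
    · rw [neg_zero]

theorem rep_mono {T : Set R} (h0 : (0 : R) ∈ T) {a : R} (ha : a ∈ T) :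
    ∀ (N : ℕ) (d : σ →₀ ℕ), d.degree = N →
      ∃ κ, ∃ c0 ∈ T, (c0 = 0 ∨ N = 0) ∧ Rep T κ c0 (monomial d a) := by
  classical
  intro N
  induction N with
  | zero =>
    intro d hd
    have hd0 : d = 0 := by
      rwa [Finsupp.degree_eq_zero_iff] at hd
    subst hd0
    exact ⟨0, a, ha, Or.inr rfl, rep_C T a⟩
  | succ N ih =>
    intro d hd
    obtain ⟨i, hi⟩ : ∃ i, d i ≠ 0 := by
      by_contra hcon
      push Not at hcon
      have : d = 0 := Finsupp.ext hcon
      rw [this] at hd
      simp at hd
    have h1 : d = Finsupp.single i 1 + (d - Finsupp.single i 1) := by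
      rw [add_tsub_cancel_of_le]
      rw [Finsupp.single_le_iff]
      omega
    obtain ⟨κ, c0, hc0, -, hr⟩ := ih (d - Finsupp.single i 1) (by
      have h2 := congrArg Finsupp.degree h1
      rw [map_add, Finsupp.degree_single, hd] at h2
      omega)
    refine ⟨κ + 1, 0, h0, Or.inl rfl, ?_⟩
    have h3 := rep_X hc0 hr i
    have h4 : (monomial d a : MvPolynomial σ R) = X i * monomial (d - Finsupp.single i 1) a := by
      conv_lhs => rw [h1]
      rw [X, monomial_mul, one_mul]
    rw [h4]
    exact h3

/-- the coefficients allowed in a program for a polynomial with coefficients in the group generated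
by `S` -/
def coeffs (S : Set R) : Set R := {t | t = 0 ∨ t ∈ S ∨ -t ∈ S}

theorem coeffs_neg (S : Set R) : ∀ t ∈ coeffs S, -t ∈ coeffs S := by
  rintro t (rfl | h | h)
  · exact Or.inl neg_zero
  · exact Or.inr (Or.inr (by rwa [neg_neg]))
  · exact Or.inr (Or.inl h)

theorem rep_closure {S : Set R} (d : σ →₀ ℕ) (hd : d ≠ 0) (a : R)
    (ha : a ∈ AddSubgroup.closure S) : ∃ κ, Rep (coeffs S) κ 0 (monomial d a) := by
  induction ha using AddSubgroup.closure_induction with
  | mem x hx =>
    obtain ⟨κ, c0, -, h1, h2⟩ := rep_mono (T := coeffs S) (Or.inl rfl) (Or.inr (Or.inl hx))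
      d.degree d rfl
    have h3 : c0 = 0 := by
      rcases h1 with h1 | h1
      · exact h1
      · exact absurd ((Finsupp.degree_eq_zero_iff d).1 h1) hd
    subst h3
    exact ⟨κ, h2⟩
  | zero =>
    refine ⟨0, ?_⟩
    have := rep_C (σ := σ) (coeffs S) (0 : R)
    rw [map_zero] at this
    rw [map_zero]
    exact this
  | add x y _ _ hx hy =>
    obtain ⟨κ₁, h1⟩ := hx
    obtain ⟨κ₂, h2⟩ := hy
    have h3 := rep_add h1 h2
    rw [add_zero, ← map_add] at h3
    exact ⟨_, h3⟩
  | neg x _ hx =>
    obtain ⟨κ, h⟩ := hx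
    have h3 := rep_neg (coeffs_neg S) h
    rw [neg_zero, ← map_neg] at h3
    exact ⟨κ, h3⟩

theorem rep_all {S : Set R} (f : MvPolynomial σ R) (h0 : coeff 0 f = 0)
    (hf : ∀ d, coeff d f ∈ AddSubgroup.closure S) : ∃ κ, Rep (coeffs S) κ 0 f := by
  classical
  have key : ∀ s : Finset (σ →₀ ℕ), (∀ d ∈ s, d ≠ 0) →
      ∃ κ, Rep (coeffs S) κ 0 (∑ d ∈ s, monomial d (coeff d f)) := by
    intro s
    induction s using Finset.induction_on with
    | empty =>
      intro _
      refine ⟨0, ?_⟩
      have := rep_C (σ := σ) (coeffs S) (0 : R)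
      rw [map_zero] at this
      rw [Finset.sum_empty]
      exact this
    | insert d s hd ih =>
      intro h
      obtain ⟨κ₁, h1⟩ := rep_closure d (h d (Finset.mem_insert_self _ _)) _ (hf d)
      obtain ⟨κ₂, h2⟩ := ih fun d' hd' => h d' (Finset.mem_insert_of_mem hd')
      have h3 := rep_add h1 h2
      rw [add_zero] at h3
      rw [Finset.sum_insert hd]
      exact ⟨_, h3⟩
  obtain ⟨κ, h⟩ := key f.support (by
    rintro d hd rfl
    exact (mem_support_iff.1 hd) h0)
  rw [← MvPolynomial.as_sum] at h
  exact ⟨κ, h⟩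

/-- one more node -/
theorem rep_succ {S : Set R} (i : σ) {κ : ℕ} {g : MvPolynomial σ R}
    (h : Rep (coeffs S) κ 0 g) : Rep (coeffs S) (κ + 1) 0 g := by
  have h1 := rep_X (T := coeffs S) (Or.inl rfl) (rep_C (σ := σ) (coeffs S) (0 : R)) i
  have h2 := rep_add h h1
  rw [map_zero, mul_zero, add_zero, add_zero, zero_add] at h2
  exact h2

theorem rep_ge {S : Set R} (i : σ) {κ : ℕ} {g : MvPolynomial σ R}
    (h : Rep (coeffs S) κ 0 g) : ∀ κ', κ ≤ κ' → Rep (coeffs S) κ' 0 g := by
  intro κ' hκ
  induction κ', hκ using Nat.le_induction with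
  | base => exact h
  | succ k _ ih => exact rep_succ i ih

end rep

end Pool.Agent.Q223.MM
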