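import Pool.Agent.Q223.MM.Iso
import Pool.Agent.Y229.MS.Fin

/-!
# Reduction of the motivic strong monodromy conjecture to programs
-/

set_option autoImplicit false

namespace Pool.Agent.Q223.MM

open MvPolynomial Pool.Agent.H628R4.TP Pool.Agent.Y229.MS
open Pool.Agent.W428.MOT (Pt Constr ratRing Lu MK)
open Pool.Agent.W375.MG (zetaG zetaOrd IsPole zetaOrd_eq ratRing_mono good_units)
open Pool.Agent.Y229.PG (BecomesG becomes_global)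
open Pool.Agent.Y229.RE (stab)

/-- Every pole of the motivic zeta function of `f` for the arcs with origin in `W` is a root of every
`b` with `b(s) f ^ s = P(s) f ^ (s + 1)`. -/
def StrongOn {n : ℕ} (f : MvPolynomial (Fin n) ℂ) (W : Set (Pt ℂ (Fin n))) : Prop :=
  ∀ s₀ : ℚ, IsPole (zetaOrd f W) s₀ → ∀ b : Polynomial ℂ, IsBFunction f b → b.eval (s₀ : ℂ) = 0

/-- the minimal exponent of `F` is larger than `N` -/
def MinExp {n : ℕ} (N : ℕ) (F : MvPolynomial (Fin n) ℂ) : Prop :=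
  ∃ c : Polynomial ℂ, c ≠ 0 ∧ IsBFunction F ((Polynomial.X + 1) * c) ∧
    ∀ r ∈ c.roots, r.re < -(N : ℝ)

theorem fst_mem {K : Type} [Field K] (S : Set (ℤ × ℤ)) : fst' K ∈ ratRing K S := by
  unfold fst'
  exact Subalgebra.sub_mem _ (Subalgebra.one_mem _) (Subalgebra.mul_mem _
    (Pool.Agent.W63.MTFin.C_mem _ _) (Algebra.subset_adjoin (Or.inl rfl)))

/-- `zetaG` from `zetaOrd` -/
theorem zetaG_of_not_pole {n : ℕ} {f : MvPolynomial (Fin n) ℂ} {W : Set (Pt ℂ (Fin n))} {s : ℚ}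
    (h : ¬ IsPole (zetaOrd f W) s) :
    zetaG f W {a | a ≠ 0} ∈ ratRing ℂ {p | 0 < p.2 ∧ ((p.1 : ℚ) / p.2) ≠ s} := by
  have h1 : zetaOrd f W ∈ ratRing ℂ {p | 0 < p.2 ∧ ((p.1 : ℚ) / p.2) ≠ s} := not_not.1 h
  rw [zetaOrd_eq] at h1
  have h2 : zetaG f W {a | a ≠ 0} = PowerSeries.C (((Lu ℂ) ^ (n : ℤ) : (MK ℂ)ˣ) : MK ℂ) *
      (PowerSeries.C (((Lu ℂ) ^ (-(n : ℤ)) : (MK ℂ)ˣ) : MK ℂ) * zetaG f W {a | a ≠ 0}) := by
    rw [← mul_assoc, ← map_mul, ← Units.val_mul, ← zpow_add, add_neg_cancel, zpow_zero,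
      Units.val_one, map_one, one_mul]
  rw [h2]
  exact Subalgebra.mul_mem _ (Pool.Agent.W63.MTFin.C_mem _ _) h1

theorem Witr_univ {K : Type} [Field K] {n : ℕ} : ∀ j : ℕ,
    Witr (Set.univ : Set (Pt K (Fin n))) j = Set.univ
  | 0 => rfl
  | j + 1 => by
    show Wyz (Witr _ j) = _
    rw [Witr_univ j]
    rfl

/-- the isomorphism of `f + y_1 z_1 + ⋯` with `F` -/
theorem exists_itr_iso {n : ℕ} (f : MvPolynomial (Fin n) ℂ) (κ : ℕ)
    {F : MvPolynomial (Fin (n + (κ + κ))) ℂ}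
    (ψ : MvPolynomial (Fin (n + (κ + κ))) ℂ ≃ₐ[ℂ] MvPolynomial (Fin (n + (κ + κ))) ℂ)
    (hψ : ψ (stabK f κ) = F) :
    ∃ χ : MvPolynomial (Fin (n + 2 * κ)) ℂ ≃ₐ[ℂ] MvPolynomial (Fin (n + (κ + κ))) ℂ,
      χ (itr f κ) = F := by
  obtain ⟨χ, hχ⟩ := Pool.Agent.Y405.MS.itr ℂ f κ
  exact ⟨χ.trans ψ, by
    show ψ (χ (itr f κ)) = F
    rw [hχ, hψ]⟩

/-- the origins for `F` -/
def Wpull {a b : ℕ} (χ : MvPolynomial (Fin a) ℂ ≃ₐ[ℂ] MvPolynomial (Fin b) ℂ)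
    (W : Set (Pt ℂ (Fin a))) : Set (Pt ℂ (Fin b)) := {w | (fun i => aeval w (χ (X i))) ∈ W}

/-- the zeta function of `itr f κ` from the one of `F` -/
theorem zeta_itr {n κ : ℕ} (f : MvPolynomial (Fin n) ℂ) {W : Set (Pt ℂ (Fin n))} (hW : Constr W)
    {F : MvPolynomial (Fin (n + (κ + κ))) ℂ}
    (χ : MvPolynomial (Fin (n + 2 * κ)) ℂ ≃ₐ[ℂ] MvPolynomial (Fin (n + (κ + κ))) ℂ)
    (hχ : χ (itr f κ) = F) {s : ℚ} (h : ¬ IsPole (zetaOrd F (Wpull χ (Witr W κ))) s) :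
    zetaG (itr f κ) (Witr W κ) {a | a ≠ 0} ∈
      ratRing ℂ {p | 0 < p.2 ∧ ((p.1 : ℚ) / p.2) ≠ s} := by
  have h1 := zetaG_of_not_pole h
  rw [← hχ] at h1
  unfold Wpull at h1
  rwa [zeta_iso Pool.Agent.Z864.MS.three (by ring) χ _ (constr_Witr hW κ)
    (ce_good good_units)] at h1

/-- a `b`-function of `F` from one of `f` -/
theorem bfun_F {n κ : ℕ} {f : MvPolynomial (Fin n) ℂ} (hf : f.totalDegree ≠ 0)
    {c : Polynomial ℂ} (hb : IsBFunction f ((Polynomial.X + 1) * c))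
    {F : MvPolynomial (Fin (n + (κ + κ))) ℂ}
    (ψ : MvPolynomial (Fin (n + (κ + κ))) ℂ ≃ₐ[ℂ] MvPolynomial (Fin (n + (κ + κ))) ℂ)
    (hψ : ψ (stabK f κ) = F) :
    IsBFunction F ((Polynomial.X + 1) * c.comp (Polynomial.X + Polynomial.C (κ : ℂ))) :=
  (becomes_global hf hb (k := κ) (G := F) ⟨ψ, hψ⟩).2 c rfl

/-- The transfer at one value of `s₀`, with two consecutive `κ`. -/
theorem transfer_at {n κ : ℕ} {f : MvPolynomial (Fin n) ℂ} (hf : f.totalDegree ≠ 0)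
    {W : Set (Pt ℂ (Fin n))} (hW : Constr W)
    {F : MvPolynomial (Fin (n + (κ + κ))) ℂ}
    {F' : MvPolynomial (Fin (n + (κ + 1 + (κ + 1)))) ℂ}
    (ψ : MvPolynomial (Fin (n + (κ + κ))) ℂ ≃ₐ[ℂ] MvPolynomial (Fin (n + (κ + κ))) ℂ)
    (hψ : ψ (stabK f κ) = F)
    (ψ' : MvPolynomial (Fin (n + (κ + 1 + (κ + 1)))) ℂ ≃ₐ[ℂ]
      MvPolynomial (Fin (n + (κ + 1 + (κ + 1)))) ℂ)
    (hψ' : ψ' (stabK f (κ + 1)) = F')
    (χ : MvPolynomial (Fin (n + 2 * κ)) ℂ ≃ₐ[ℂ] MvPolynomial (Fin (n + (κ + κ))) ℂ)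
    (hχ : χ (itr f κ) = F)
    (χ' : MvPolynomial (Fin (n + 2 * (κ + 1))) ℂ ≃ₐ[ℂ]
      MvPolynomial (Fin (n + (κ + 1 + (κ + 1)))) ℂ)
    (hχ' : χ' (itr f (κ + 1)) = F')
    (h1 : StrongOn F (Wpull χ (Witr W κ))) (h2 : StrongOn F' (Wpull χ' (Witr W (κ + 1))))
    (s₀ : ℚ) (hs1 : s₀ ≠ κ - 1) (hs2 : s₀ ≠ κ) (hp : IsPole (zetaOrd f W) s₀)
    (b : Polynomial ℂ) (hb : IsBFunction f b) : b.eval (s₀ : ℂ) = 0 := by
  by_contra hne
  have hm1 := (becomes_global hf hb (k := κ) (G := F) ⟨ψ, hψ⟩).1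
  obtain ⟨c, hc⟩ : (Polynomial.X + 1 : Polynomial ℂ) ∣ b := by
    have := Polynomial.dvd_iff_isRoot.2 hm1
    simpa using this
  subst hc
  have hs0 : s₀ ≠ -1 := by
    rintro rfl
    apply hne
    push_cast
    exact hm1
  rw [Polynomial.eval_mul, ← ne_eq, mul_ne_zero_iff] at hne
  have key : ∀ (j : ℕ), s₀ ≠ j - 1 →
      ((Polynomial.X + 1) * c.comp (Polynomial.X + Polynomial.C (j : ℂ))).eval
        ((s₀ - j : ℚ) : ℂ) ≠ 0 := by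
    intro j hj
    rw [Polynomial.eval_mul, Polynomial.eval_comp]
    refine mul_ne_zero ?_ ?_
    · rw [Polynomial.eval_add, Polynomial.eval_X, Polynomial.eval_one]
      intro h0
      apply hj
      have h3 : (((s₀ - j + 1 : ℚ)) : ℂ) = 0 := by
        push_cast at h0 ⊢
        exact h0
      have h4 : (s₀ - j + 1 : ℚ) = 0 := by exact_mod_cast h3
      linarith
    · rw [Polynomial.eval_add, Polynomial.eval_X, Polynomial.eval_C]
      have h3 : ((s₀ - j : ℚ) : ℂ) + (j : ℂ) = (s₀ : ℂ) := by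
        push_cast
        ring
      rw [h3]
      exact hne.2
  have n1 : ¬ IsPole (zetaOrd F (Wpull χ (Witr W κ))) (s₀ - κ) := fun hpole =>
    key κ hs1 (h1 _ hpole _ (bfun_F hf hb ψ hψ))
  have n2 : ¬ IsPole (zetaOrd F' (Wpull χ' (Witr W (κ + 1)))) (s₀ - ((κ + 1 : ℕ) : ℚ)) :=
    fun hpole => key (κ + 1) (by push_cast; rw [add_sub_cancel_right]; exact hs2)
      (h2 _ hpole _ (bfun_F hf hb ψ' hψ'))
  have z1 := zeta_itr f hW χ hχ n1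
  have z2 := zeta_itr f hW χ' hχ' n2
  have z3 := descend' f hW (ce_good good_units) κ _ _ (fun p hp => hp.1) (fun p hp => hp.1)
    ((ratRing ℂ _).mul_mem (fst_mem _) z1) ((ratRing ℂ _).mul_mem (fst_mem _) z2)
  have z4 := zeta_of_fst f W _ _ z3
  apply hp
  rw [zetaOrd_eq]
  refine Subalgebra.mul_mem _ (Pool.Agent.W63.MTFin.C_mem _ _) (ratRing_mono ?_ z4)
  rintro p (rfl | ⟨q, ⟨hq1, hq2⟩, rfl⟩ | ⟨q, ⟨hq1, hq2⟩, rfl⟩)
  · refine ⟨one_pos, ?_⟩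
    intro h
    apply hs0
    rw [← h]
    norm_num
  · refine ⟨hq1, ?_⟩
    intro h
    apply hq2
    have hq0 : (q.2 : ℚ) ≠ 0 := by exact_mod_cast hq1.ne'
    rw [← h]
    push_cast
    field_simp
    ring
  · refine ⟨hq1, ?_⟩
    intro h
    apply hq2
    have hq0 : (q.2 : ℚ) ≠ 0 := by exact_mod_cast hq1.ne'
    rw [← h]
    push_cast
    field_simp
    ring

end Pool.Agent.Q223.MM
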