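import Pool.Agent.Q223.MM.Alg

/-!
# The automorphism belonging to a Horner scheme
-/

set_option autoImplicit false

namespace Pool.Agent.Q223.MM

open MvPolynomial

section iso

variable {R : Type} [CommRing R] {n κ : ℕ}

/-- the variable `x_i` -/
noncomputable def xv (R : Type) [CommRing R] {n : ℕ} (κ : ℕ) (i : Fin n) :
    MvPolynomial (Fin (n + (κ + κ))) R := X (Fin.castAdd (κ + κ) i)

/-- the variable `y_m` -/
noncomputable def yv (R : Type) [CommRing R] (n : ℕ) {κ : ℕ} (m : Fin κ) :
    MvPolynomial (Fin (n + (κ + κ))) R := X (Fin.natAdd n (Fin.castAdd κ m))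

/-- the variable `z_m` -/
noncomputable def zv (R : Type) [CommRing R] (n : ℕ) {κ : ℕ} (m : Fin κ) :
    MvPolynomial (Fin (n + (κ + κ))) R := X (Fin.natAdd n (Fin.natAdd κ m))

/-- the product `z_(o m) x_(v m)`, where `z_none = 1` -/
noncomputable def wv (R : Type) [CommRing R] {n κ : ℕ} (o : Fin κ → Option (Fin κ))
    (v : Fin κ → Fin n) (m : Fin κ) : MvPolynomial (Fin (n + (κ + κ))) R :=
  (o m).elim 1 (zv R n) * xv R κ (v m)

/-- the images of the variables -/
noncomputable def assign {A : Type} (a : Fin n → A) (b c : Fin κ → A) : Fin (n + (κ + κ)) → A :=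
  Fin.addCases a (Fin.addCases b c)

theorem assign_x {A : Type} (a : Fin n → A) (b c : Fin κ → A) (i : Fin n) :
    assign a b c (Fin.castAdd (κ + κ) i) = a i := by
  unfold assign
  rw [Fin.addCases_left]

theorem assign_y {A : Type} (a : Fin n → A) (b c : Fin κ → A) (m : Fin κ) :
    assign a b c (Fin.natAdd n (Fin.castAdd κ m)) = b m := by
  unfold assign
  rw [Fin.addCases_right, Fin.addCases_left]

theorem assign_z {A : Type} (a : Fin n → A) (b c : Fin κ → A) (m : Fin κ) :
    assign a b c (Fin.natAdd n (Fin.natAdd κ m)) = c m := by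
  unfold assign
  rw [Fin.addCases_right, Fin.addCases_right]

theorem all_vars {P : Fin (n + (κ + κ)) → Prop} (h1 : ∀ i, P (Fin.castAdd (κ + κ) i))
    (h2 : ∀ m, P (Fin.natAdd n (Fin.castAdd κ m))) (h3 : ∀ m, P (Fin.natAdd n (Fin.natAdd κ m)))
    (i : Fin (n + (κ + κ))) : P i :=
  Fin.addCases h1 (Fin.addCases h2 h3) i

/-- iterates of the inverse substitution -/
noncomputable def invN (R : Type) [CommRing R] {n κ : ℕ} (o : Fin κ → Option (Fin κ))
    (v : Fin κ → Fin n) : ℕ → Fin κ → MvPolynomial (Fin (n + (κ + κ))) R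
  | 0, m => zv R n m
  | k + 1, m => zv R n m + (o m).elim 1 (invN R o v k) * xv R κ (v m)

theorem invN_stable {o : Fin κ → Option (Fin κ)} (ho : Forest o) (v : Fin κ → Fin n) :
    ∀ (k : ℕ) (m : Fin κ), (m : ℕ) < k → invN R o v k m = invN R o v (k + 1) m := by
  intro k
  induction k with
  | zero => intro m hm; omega
  | succ k ih =>
    intro m hm
    have h1 : (o m).elim 1 (invN R o v k) = (o m).elim 1 (invN R o v (k + 1)) := by
      cases h : o m with
      | none => rfl
      | some m' =>
        have h2 := ho m m' h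
        rw [Fin.lt_def] at h2
        exact ih m' (by omega)
    show zv R n m + (o m).elim 1 (invN R o v k) * xv R κ (v m) =
      zv R n m + (o m).elim 1 (invN R o v (k + 1)) * xv R κ (v m)
    rw [h1]

/-- the inverse substitution -/
noncomputable def inv (R : Type) [CommRing R] {n κ : ℕ} (o : Fin κ → Option (Fin κ))
    (v : Fin κ → Fin n) : Fin κ → MvPolynomial (Fin (n + (κ + κ))) R :=
  invN R o v κ

theorem inv_eq {o : Fin κ → Option (Fin κ)} (ho : Forest o) (v : Fin κ → Fin n) (m : Fin κ) :
    inv R o v m = zv R n m + (o m).elim 1 (inv R o v) * xv R κ (v m) := by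
  unfold inv
  exact invN_stable ho v κ m m.2

/-- the substitution -/
noncomputable def fwd {n κ : ℕ} (o : Fin κ → Option (Fin κ)) (v : Fin κ → Fin n)
    (d : Fin κ → MvPolynomial (Fin n) R) :
    MvPolynomial (Fin (n + (κ + κ))) R →ₐ[R] MvPolynomial (Fin (n + (κ + κ))) R :=
  aeval (assign (xv R κ) (fun m => yv R n m + rename (Fin.castAdd (κ + κ)) (d m))
    fun m => zv R n m - wv R o v m)

/-- the inverse substitution -/
noncomputable def bwd {n κ : ℕ} (o : Fin κ → Option (Fin κ)) (v : Fin κ → Fin n)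
    (d : Fin κ → MvPolynomial (Fin n) R) :
    MvPolynomial (Fin (n + (κ + κ))) R →ₐ[R] MvPolynomial (Fin (n + (κ + κ))) R :=
  aeval (assign (xv R κ) (fun m => yv R n m - rename (Fin.castAdd (κ + κ)) (d m))
    (inv R o v))

section
variable (o : Fin κ → Option (Fin κ)) (v : Fin κ → Fin n) (d : Fin κ → MvPolynomial (Fin n) R)

theorem fwd_x (i : Fin n) : fwd o v d (xv R κ i) = xv R κ i := by
  unfold fwd
  rw [show xv R κ i = X (Fin.castAdd (κ + κ) i) from rfl, aeval_X, assign_x]
  rfl

theorem fwd_y (m : Fin κ) :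
    fwd o v d (yv R n m) = yv R n m + rename (Fin.castAdd (κ + κ)) (d m) := by
  unfold fwd
  rw [show yv R n m = X (Fin.natAdd n (Fin.castAdd κ m)) from rfl, aeval_X, assign_y]
  rfl

theorem fwd_z (m : Fin κ) : fwd o v d (zv R n m) = zv R n m - wv R o v m := by
  unfold fwd
  rw [show zv R n m = X (Fin.natAdd n (Fin.natAdd κ m)) from rfl, aeval_X, assign_z]
  rfl

theorem bwd_x (i : Fin n) : bwd o v d (xv R κ i) = xv R κ i := by
  unfold bwd
  rw [show xv R κ i = X (Fin.castAdd (κ + κ) i) from rfl, aeval_X, assign_x]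
  rfl

theorem bwd_y (m : Fin κ) :
    bwd o v d (yv R n m) = yv R n m - rename (Fin.castAdd (κ + κ)) (d m) := by
  unfold bwd
  rw [show yv R n m = X (Fin.natAdd n (Fin.castAdd κ m)) from rfl, aeval_X, assign_y]
  rfl

theorem bwd_z (m : Fin κ) : bwd o v d (zv R n m) = inv R o v m := by
  unfold bwd
  rw [show zv R n m = X (Fin.natAdd n (Fin.natAdd κ m)) from rfl, aeval_X, assign_z]

theorem fwd_ren (g : MvPolynomial (Fin n) R) :
    fwd o v d (rename (Fin.castAdd (κ + κ)) g) = rename (Fin.castAdd (κ + κ)) g := by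
  have h : (fwd o v d).comp (rename (Fin.castAdd (κ + κ))) = rename (Fin.castAdd (κ + κ)) := by
    apply MvPolynomial.algHom_ext
    intro i
    rw [AlgHom.comp_apply, rename_X]
    exact fwd_x o v d i
  exact DFunLike.congr_fun h g

theorem bwd_ren (g : MvPolynomial (Fin n) R) :
    bwd o v d (rename (Fin.castAdd (κ + κ)) g) = rename (Fin.castAdd (κ + κ)) g := by
  have h : (bwd o v d).comp (rename (Fin.castAdd (κ + κ))) = rename (Fin.castAdd (κ + κ)) := by
    apply MvPolynomial.algHom_ext
    intro i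
    rw [AlgHom.comp_apply, rename_X]
    exact bwd_x o v d i
  exact DFunLike.congr_fun h g

theorem fwd_inv (ho : Forest o) : ∀ (k : ℕ) (m : Fin κ), (m : ℕ) = k →
    fwd o v d (inv R o v m) = zv R n m := by
  intro k
  induction k using Nat.strong_induction_on with
  | _ k ih =>
    intro m hm
    rw [inv_eq ho v m, map_add, map_mul, fwd_z, fwd_x]
    have h1 : fwd o v d ((o m).elim 1 (inv R o v)) = (o m).elim 1 (zv R n) := by
      cases h : o m with
      | none => exact map_one _
      | some m' =>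
        have h2 := ho m m' h
        rw [Fin.lt_def] at h2
        exact ih m' (by omega) m' rfl
    rw [h1]
    unfold wv
    ring

theorem fwd_bwd (ho : Forest o) : (fwd o v d).comp (bwd o v d) = AlgHom.id R _ := by
  apply MvPolynomial.algHom_ext
  refine all_vars (fun i => ?_) (fun m => ?_) (fun m => ?_)
  · rw [AlgHom.comp_apply, AlgHom.id_apply]
    exact (congrArg _ (bwd_x o v d i)).trans (fwd_x o v d i)
  · rw [AlgHom.comp_apply, AlgHom.id_apply]
    refine (congrArg _ (bwd_y o v d m)).trans ?_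
    rw [map_sub, fwd_y, fwd_ren, add_sub_cancel_right]
    rfl
  · rw [AlgHom.comp_apply, AlgHom.id_apply]
    exact (congrArg _ (bwd_z o v d m)).trans (fwd_inv o v d ho m m rfl)

theorem bwd_fwd (ho : Forest o) : (bwd o v d).comp (fwd o v d) = AlgHom.id R _ := by
  apply MvPolynomial.algHom_ext
  refine all_vars (fun i => ?_) (fun m => ?_) (fun m => ?_)
  · rw [AlgHom.comp_apply, AlgHom.id_apply]
    exact (congrArg _ (fwd_x o v d i)).trans (bwd_x o v d i)
  · rw [AlgHom.comp_apply, AlgHom.id_apply]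
    refine (congrArg _ (fwd_y o v d m)).trans ?_
    rw [map_add, bwd_y, bwd_ren, sub_add_cancel]
    rfl
  · rw [AlgHom.comp_apply, AlgHom.id_apply]
    refine (congrArg _ (fwd_z o v d m)).trans ?_
    unfold wv
    rw [map_sub, map_mul, bwd_z, bwd_x, inv_eq ho v m]
    have h1 : bwd o v d ((o m).elim 1 (zv R n)) = (o m).elim 1 (inv R o v) := by
      cases h : o m with
      | none => exact map_one _
      | some m' => exact bwd_z o v d m'
    rw [h1, add_sub_cancel_right]
    rfl

/-- the automorphism -/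
noncomputable def aut (ho : Forest o) :
    MvPolynomial (Fin (n + (κ + κ))) R ≃ₐ[R] MvPolynomial (Fin (n + (κ + κ))) R :=
  AlgEquiv.ofAlgHom (fwd o v d) (bwd o v d) (fwd_bwd o v d ho) (bwd_fwd o v d ho)

end

/-- `∑ c_m z_m + ∑ (y_m - δ_m) (z_m - z_(o m) x_(v m))` -/
noncomputable def progD {n κ : ℕ} (o : Fin κ → Option (Fin κ)) (v : Fin κ → Fin n)
    (c δ : Fin κ → R) : MvPolynomial (Fin (n + (κ + κ))) R :=
  ∑ m, (C (c m) * zv R n m + (yv R n m - C (δ m)) * (zv R n m - wv R o v m))

theorem horner_key {o : Fin κ → Option (Fin κ)} {v : Fin κ → Fin n}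
    {c : Fin κ → R} {e : Fin κ → MvPolynomial (Fin n) R} {f : MvPolynomial (Fin n) R}
    (h : Horner o v c 0 e f) :
    rename (Fin.castAdd (κ + κ)) f + ∑ j, rename (Fin.castAdd (κ + κ)) (e j) *
      (zv R n j - wv R o v j) = ∑ j, C (c j) * zv R n j := by
  classical
  obtain ⟨h1, h2⟩ := h
  set ρ : MvPolynomial (Fin n) R →ₐ[R] MvPolynomial (Fin (n + (κ + κ))) R :=
    rename (Fin.castAdd (κ + κ)) with hρ
  have hX : ∀ i, ρ (X i) = xv R κ i := fun i => rename_X _ _
  have e1 : ∀ j, ρ (e j) = C (c j) + ∑ m, if o m = some j then xv R κ (v m) * ρ (e m) else 0 := by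
    intro j
    conv_lhs => rw [h1 j]
    rw [map_add, map_sum]
    congr 1
    · exact rename_C _ _
    · refine Finset.sum_congr rfl fun m _ => ?_
      split_ifs
      · rw [map_mul, hX]
      · exact map_zero _
  have e2 : ρ f = ∑ m, if o m = none then xv R κ (v m) * ρ (e m) else 0 := by
    rw [h2, map_zero, zero_add, map_sum]
    refine Finset.sum_congr rfl fun m _ => ?_
    split_ifs
    · rw [map_mul, hX]
    · exact map_zero _
  have e3 : ∑ j, ρ (e j) * zv R n j = ∑ j, C (c j) * zv R n j +
      ∑ m, (o m).elim 0 (fun j => zv R n j) * (xv R κ (v m) * ρ (e m)) := by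
    rw [Finset.sum_congr rfl fun j _ => by rw [e1 j, add_mul], Finset.sum_add_distrib]
    congr 1
    rw [Finset.sum_congr rfl fun j _ => by rw [Finset.sum_mul], Finset.sum_comm]
    refine Finset.sum_congr rfl fun m _ => ?_
    cases hm : o m with
    | none =>
      simp
    | some j0 =>
      rw [Finset.sum_eq_single j0]
      · rw [if_pos rfl]
        show _ = zv R n j0 * _
        ring
      · intro j _ hj
        rw [if_neg (fun h => hj (Option.some.inj h).symm), zero_mul]
      · intro h
        exact absurd (Finset.mem_univ _) h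
  have e4 : ∑ j, ρ (e j) * wv R o v j = ρ f +
      ∑ m, (o m).elim 0 (fun j => zv R n j) * (xv R κ (v m) * ρ (e m)) := by
    rw [e2, ← Finset.sum_add_distrib]
    refine Finset.sum_congr rfl fun m _ => ?_
    unfold wv
    cases hm : o m with
    | none =>
      simp
      ring
    | some j0 =>
      simp
      ring
  rw [Finset.sum_congr rfl fun j _ => mul_sub _ _ _, Finset.sum_sub_distrib, e3, e4]
  ring

theorem prog_iso {o : Fin κ → Option (Fin κ)} (ho : Forest o) {v : Fin κ → Fin n}
    {c : Fin κ → R} {e : Fin κ → MvPolynomial (Fin n) R} {f : MvPolynomial (Fin n) R}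
    (h : Horner o v c 0 e f) (δ : Fin κ → R) :
    aut o v (fun m => e m - C (δ m)) ho (rename (Fin.castAdd (κ + κ)) f +
      ∑ m, yv R n m * zv R n m) = progD o v c δ := by
  show fwd o v (fun m => e m - C (δ m)) _ = _
  rw [map_add, fwd_ren, map_sum]
  unfold progD
  rw [Finset.sum_add_distrib, ← horner_key h, add_assoc, ← Finset.sum_add_distrib]
  congr 1
  refine Finset.sum_congr rfl fun m _ => ?_
  rw [map_mul, fwd_y, fwd_z, map_sub, rename_C]
  ring

end iso

end Pool.Agent.Q223.MM
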